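import Pool.Agent.S08446

open Topology Pool.Agent.S08446

namespace Pool.Agent.Results.MP_5b75f6_gt.LinearExample

/-- the topology of pointwise convergence on the continuous real functions -/
@[reducible] def ptop (X : Type) [TopologicalSpace X] : TopologicalSpace C(X, ℝ) :=
  TopologicalSpace.induced (fun f : C(X, ℝ) => (f : X → ℝ)) inferInstance

/-- the function spaces, with the topology of pointwise convergence, are linearly homeomorphic -/
def LEquivalent (X Y : Type) [TopologicalSpace X] [TopologicalSpace Y] : Prop :=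
  ∃ T : C(X, ℝ) ≃ₗ[ℝ] C(Y, ℝ),
    @Continuous C(X, ℝ) C(Y, ℝ) (ptop X) (ptop Y) T ∧
      @Continuous C(Y, ℝ) C(X, ℝ) (ptop Y) (ptop X) T.symm

/-- every continuous real function is bounded -/
def Pseudocompact (X : Type) [TopologicalSpace X] : Prop :=
  ∀ f : X → ℝ, Continuous f → ∃ M : ℝ, ∀ x, |f x| ≤ M

/-- countable union of pseudocompact subspaces -/
def SigmaPseudocompact (X : Type) [TopologicalSpace X] : Prop :=
  ∃ S : ℕ → Set X, (⋃ n, S n) = Set.univ ∧ ∀ n, Pseudocompact (S n)

/-- There are Tychonoff spaces `X` and `Y` with linearly homeomorphic function spaces such that `Y`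
is sigma-pseudocompact and `X` is not. -/
theorem result : ∃ (X Y : Type) (_ : TopologicalSpace X) (_ : TopologicalSpace Y),
    T35Space X ∧ T35Space Y ∧ LEquivalent X Y ∧ SigmaPseudocompact Y ∧ ¬ SigmaPseudocompact X := by
  have i1 : T35Space (X1 ⊕ Unit) := t35_sum X1 Unit
  have i2 : T35Space (KS ⊕ Y0) := t35_sum KS Y0
  refine ⟨X1 ⊕ Unit, KS ⊕ Y0, inferInstance, inferInstance, i1, i2, ⟨
    { toFun := fwd
      map_add' := ?_
      map_smul' := ?_
      invFun := bwd
      left_inv := bwd_fwd
      right_inv := fwd_bwd }, ?_, ?_⟩, ?_, ?_⟩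
  · intro f g
    ext z
    rcases z with k | y
    · rfl
    · change ((f (Sum.inl (ss y)) + g (Sum.inl (ss y))) -
        (f (Sum.inl (sec (rr (ss y)))) + g (Sum.inl (sec (rr (ss y)))))) +
        (f (Sum.inr ()) + g (Sum.inr ())) =
        ((f (Sum.inl (ss y)) - f (Sum.inl (sec (rr (ss y))))) + f (Sum.inr ())) +
        ((g (Sum.inl (ss y)) - g (Sum.inl (sec (rr (ss y))))) + g (Sum.inr ()))
      ring
  · intro c f
    ext z
    rcases z with k | y
    · rfl
    · change ((c * f (Sum.inl (ss y))) - (c * f (Sum.inl (sec (rr (ss y)))))) +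
        (c * f (Sum.inr ())) =
        c * ((f (Sum.inl (ss y)) - f (Sum.inl (sec (rr (ss y))))) + f (Sum.inr ()))
      ring
  · let _ : TopologicalSpace C(X1 ⊕ Unit, ℝ) := ptop (X1 ⊕ Unit)
    have hev : ∀ z : X1 ⊕ Unit, Continuous (fun g : C(X1 ⊕ Unit, ℝ) => g z) := fun z =>
      (continuous_apply z).comp continuous_induced_dom
    refine continuous_induced_rng.mpr (continuous_pi ?_)
    rintro (k | y)
    · exact hev _
    · exact ((hev _).sub (hev _)).add (hev _)
  · let _ : TopologicalSpace C(KS ⊕ Y0, ℝ) := ptop (KS ⊕ Y0)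
    have hev : ∀ z : KS ⊕ Y0, Continuous (fun g : C(KS ⊕ Y0, ℝ) => g z) := fun z =>
      (continuous_apply z).comp continuous_induced_dom
    refine continuous_induced_rng.mpr (continuous_pi ?_)
    rintro (w | u)
    · exact ((hev _).add (hev _)).sub (hev _)
    · exact hev _
  · obtain ⟨S, hS, h⟩ := Y_sigma
    exact ⟨S, hS, fun n f hf => h n ⟨f, hf⟩⟩
  · rintro ⟨S, hS, h⟩
    exact X_not_sigma ⟨S, hS, fun n f => h n f f.continuous⟩

end Pool.Agent.Results.MP_5b75f6_gt.LinearExample
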